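import Pool.Agent.NorK.Comp

set_option autoImplicit false

/-!
# MP_615643_co: a criterion in terms of alternating faces and of the components of the colours

An `a`-component is a component of the graph of the edges of the colour `a`.  A face is a 4-cycle
of the cube whose edges have the colours 0, 1, 0, 1 in cyclic order, so that the ends of each of
its edges lie in different components of the colour which the edge does not have.  Let `D` be a set
of directions which contains all directions of faces, for example the set of all directions.  Let
`e` and `e'` be vertices which agree exactly in the directions in `D`.  For a subset `Z` of `D` let
`P` be the subcube at `e` with the directions in `Z`, and let `P'` be the subcube at `e'` with the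
directions in `D \ Z`.  Suppose that for every `Z` one of the following conditions holds.

* `P` contains no face.
* `P'` contains no face.
* At most five directions occur in the faces in `P` and in `P'`.
* For one of the two colours, no three-dimensional subcube of `P` or of `P'` has three faces with a
  common direction in which their edges have this colour, and three components of this colour.
* There is no vertex `v` of `P` which lies in the same component as a vertex of `P'` for both
  colours, so that each of the two components of `v` meets at least five components of the other
  colour, but not that of the antipode of `v`, and the two components of `v` are among three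
  components of each colour which meet each other (all nine pairs).

Then for each colour `b` there is a path from some vertex to its antipode which consists of edges
of the colour `b` followed by edges of the other colour.

In particular this holds if there are no three components of each colour which meet each other, for
example if the bipartite graph of the components is planar (`NorK.nine_comp`), if every vertex lies
in a component of one of the colours which meets at most four components of the other colour
(`NorK.four_comp`), if one of the colours has at most five components (`NorK.five_comp`), if at
most five directions occur in alternating 4-cycles, or if some ball of radius `n / 2` contains no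
alternating 4-cycle.
-/

namespace Pool.Agent.Results.MP_615643_co.FewAlternating

open Pool.Agent.AntiPath Pool.Agent.NorK

theorem result (n : ℕ) (c : (Fin n → Bool) → (Fin n → Bool) → Bool)
    (hc : ∀ u v, c u v = c v u) (D : Finset (Fin n)) (hD : ∀ a x i k, Face c a x i k → i ∈ D)
    (e e' : Fin n → Bool) (he : ∀ l, e' l = e l ↔ l ∈ D)
    (h : ∀ Z : Finset (Fin n), Z ⊆ D →
      (∀ a x i k, Face c a x i k → ¬ Inside e Z x {i, k}) ∨
      (∀ a x i k, Face c a x i k → ¬ Inside e' (D \ Z) x {i, k}) ∨
      (∃ S : Finset (Fin n), S.card ≤ 5 ∧ ∀ a x i k, Face c a x i k →
        Inside e Z x {i, k} ∨ Inside e' (D \ Z) x {i, k} → i ∈ S) ∨
      (∃ a, ∀ x i j k, Three c a x i j k →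
        ¬ Inside e Z x {i, j, k} ∧ ¬ Inside e' (D \ Z) x {i, j, k}) ∨
      ∀ v v', (∀ l, l ∉ Z → v l = e l) → (∀ l, l ∉ D \ Z → v' l = e' l) →
        (∀ a, Joined c a v v') → ¬ Branch c v)
    (b : Bool) :
    ∃ (k : ℕ) (p : ℕ → (Fin n → Bool)) (j : ℕ), IsPath p k ∧ p k = antipode (p 0) ∧
      changes c p k ≤ 1 ∧ j ≤ k ∧ ∀ t, t < k → c (p t) (p (t + 1)) = if t < j then b else !b :=
  critC c hc D hD e e' he h b

end Pool.Agent.Results.MP_615643_co.FewAlternating
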