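import Pool.Agent.Nor.Main

set_option autoImplicit false

/-!
# MP_615643_co: Norine's conjecture

Every 2-colouring of the edges of the `n`-cube in which antipodal edges have different colours has
a monochromatic path between two antipodal vertices, in each of the two colours.  Every
2-colouring of the edges of the `n`-cube in which antipodal edges have the same colour has a path
between two antipodal vertices which changes its colour at most once, starting with any prescribed
colour.
-/

namespace Pool.Agent.Results.MP_615643_co.Norine

open Pool.Agent.AntiPath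

theorem result (n : ℕ) (c : (Fin n → Bool) → (Fin n → Bool) → Bool)
    (hc : ∀ u v, c u v = c v u) (a : Bool) :
    ((∀ u i, c (antipode u) (antipode (flip u i)) ≠ c u (flip u i)) →
      ∃ (k : ℕ) (p : ℕ → (Fin n → Bool)), IsPath p k ∧ p k = antipode (p 0) ∧
        ∀ t, t < k → c (p t) (p (t + 1)) = a) ∧
    ((∀ u i, c (antipode u) (antipode (flip u i)) = c u (flip u i)) →
      ∃ (k : ℕ) (p : ℕ → (Fin n → Bool)) (j : ℕ), IsPath p k ∧ p k = antipode (p 0) ∧
        changes c p k ≤ 1 ∧ j ≤ k ∧
        ∀ t, t < k → c (p t) (p (t + 1)) = if t < j then a else !a) :=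
  ⟨fun h => Pool.Agent.Nor.norine c hc h a, fun h => Pool.Agent.Nor.symmetric c hc h a⟩

end Pool.Agent.Results.MP_615643_co.Norine
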