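import Pool.Agent.AntiPath.Walk

set_option autoImplicit false

/-!
# MP_615643_co: antipodal paths with at most `2 √n` colour changes
-/

namespace Pool.Agent.AntiPath

variable {n : ℕ} (c : (Fin n → Bool) → (Fin n → Bool) → Bool)

theorem count_eq : (∑ x : Fin n → Bool, ∑ i : Fin n,
    if c x (flip x i) = true then (1 : ℝ) else 0) = density c * (n * 2 ^ n) := by
  unfold density
  rcases Nat.eq_zero_or_pos n with h | h
  · subst h
    simp
  · have : (n : ℝ) * 2 ^ n ≠ 0 := by positivity
    rw [div_mul_cancel₀ _ this]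

theorem density_nonneg : 0 ≤ density c := by
  unfold density
  refine div_nonneg (Finset.sum_nonneg fun x _ => Finset.sum_nonneg fun i _ => ?_) (by positivity)
  split_ifs <;> norm_num

theorem density_le_one : density c ≤ 1 := by
  unfold density
  refine div_le_one_of_le₀ ?_ (by positivity)
  have h1 : ∑ x : Fin n → Bool, ∑ i : Fin n, (if c x (flip x i) = true then (1 : ℝ) else 0) ≤
      ∑ _x : Fin n → Bool, ∑ _i : Fin n, (1 : ℝ) := by
    refine Finset.sum_le_sum fun x _ => Finset.sum_le_sum fun i _ => ?_
    split_ifs <;> norm_num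
  refine h1.trans (le_of_eq ?_)
  simp
  ring

variable {c}

/-- the kernel of a colouring, with a transformation of the second variable and a sign -/
noncomputable def mkKer (hc : ∀ u v, c u v = c v u) (s : ℝ) (hs : |s| ≤ 1)
    (T : (Fin n → Bool) → (Fin n → Bool)) : Ker n where
  a x w := s * dist c true x (T w)
  b x w := s * dist c false x (T w)
  col x i := c x (flip x i)
  θ := density c
  hcol x i := by rw [flip_flip, hc]
  ha x i w h := by
    have := dist_flip hc x (T w) i
    rw [h] at this
    rw [this]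
  hb x i w h := by
    have := dist_flip hc x (T w) i
    rw [h] at this
    rw [this]
  hab x w := by
    rw [← mul_sub, abs_mul]
    have h1 := dist_switch (c := c) true false x (T w)
    have h2 := dist_switch (c := c) false true x (T w)
    have h3 : |(dist c true x (T w) : ℝ) - dist c false x (T w)| ≤ 1 := by
      rw [abs_le]
      have h1' : (dist c true x (T w) : ℝ) ≤ dist c false x (T w) + 1 := by exact_mod_cast h1
      have h2' : (dist c false x (T w) : ℝ) ≤ dist c true x (T w) + 1 := by exact_mod_cast h2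
      constructor <;> linarith
    calc |s| * |(dist c true x (T w) : ℝ) - dist c false x (T w)| ≤ 1 * 1 := by gcongr
      _ = 1 := one_mul 1

theorem sum_sigma (hc : ∀ u v, c u v = c v u) (s : ℝ) (hs : |s| ≤ 1)
    (T : (Fin n → Bool) → (Fin n → Bool)) :
    ∑ i, (mkKer hc s hs T).σ i = density c * (1 - density c) * n := by
  unfold Ker.σ
  rw [← Finset.sum_div, Finset.sum_comm]
  have h1 : ∀ (x : Fin n → Bool) (i : Fin n), (mkKer hc s hs T).e x i ^ 2 =
      density c ^ 2 + (1 - 2 * density c) *
        (if c x (flip x i) = true then (1 : ℝ) else 0) := by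
    intro x i
    unfold Ker.e
    change (if c x (flip x i) = true then -(1 - density c) else density c) ^ 2 = _
    split_ifs <;> ring
  simp only [h1, Finset.sum_add_distrib, ← Finset.mul_sum, count_eq]
  rw [div_eq_iff (by positivity)]
  simp
  ring

theorem Phi_empty (K : Ker n) : K.Φ ∅ = (∑ x, K.F x x) / 2 ^ n := by
  unfold Ker.Φ
  have h1 : ∀ x y : Fin n → Bool, mix ∅ x y = x := fun x y => by
    funext i; simp [mix]
  simp only [h1, Finset.sum_const, Ker.card_cube]
  rw [← Finset.smul_sum, nsmul_eq_mul]
  have h4 : (4 : ℝ) ^ n = 2 ^ n * 2 ^ n := by rw [← mul_pow]; norm_num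
  rw [h4]
  push_cast
  field_simp

theorem Phi_univ (K : Ker n) : K.Φ Finset.univ = (∑ x, ∑ y, K.F x y) / 4 ^ n := by
  unfold Ker.Φ
  have h1 : ∀ x y : Fin n → Bool, mix Finset.univ x y = y := fun x y => by
    funext i; simp [mix]
  simp only [h1]

/-- the mixed distance -/
noncomputable def FF (c : (Fin n → Bool) → (Fin n → Bool) → Bool) (x y : Fin n → Bool) : ℝ :=
  density c * dist c true x y + (1 - density c) * dist c false x y

theorem min_le_FF (x y : Fin n → Bool) : (minChanges c x y : ℝ) ≤ FF c x y := by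
  unfold FF
  have h1 : (minChanges c x y : ℝ) ≤ dist c true x y := by exact_mod_cast minChanges_le true x y
  have h2 : (minChanges c x y : ℝ) ≤ dist c false x y := by exact_mod_cast minChanges_le false x y
  have h3 := density_nonneg c
  have h4 := density_le_one c
  nlinarith [mul_le_mul_of_nonneg_left h1 h3, mul_le_mul_of_nonneg_left h2 (sub_nonneg.2 h4)]

theorem pairs (hc : ∀ u v, c u v = c v u) :
    (∑ x, ∑ y, FF c x y) / 4 ^ n ≤ 2 * √(density c * (1 - density c) * n) := by
  have h := (mkKer hc 1 (by norm_num) id).Φ_le Finset.univ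
  rw [sum_sigma, Phi_univ, Phi_empty] at h
  have h1 : ∀ x y, (mkKer hc 1 (by norm_num) id).F x y = FF c x y := by
    intro x y
    simp [Ker.F, mkKer, FF]
  have h2 : ∀ x, FF c x x = 0 := by
    intro x
    simp [FF, dist_self]
  simp only [h1, h2, Finset.sum_const_zero, zero_div, zero_add] at h
  exact h

theorem antipode_antipode (x : Fin n → Bool) : antipode (antipode x) = x := by
  funext i; simp [antipode]

theorem diag (hc : ∀ u v, c u v = c v u) :
    (∑ x, FF c x (antipode x)) / 2 ^ n ≤ 4 * √(density c * (1 - density c) * n) := by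
  have h := (mkKer hc (-1) (by norm_num) antipode).Φ_le Finset.univ
  rw [sum_sigma, Phi_univ, Phi_empty] at h
  have h1 : ∀ x y, (mkKer hc (-1) (by norm_num) antipode).F x y = - FF c x (antipode y) := by
    intro x y
    simp only [Ker.F, mkKer, FF]
    ring
  have h2 : ∀ x, ∑ y, FF c x (antipode y) = ∑ y, FF c x y := by
    intro x
    refine Fintype.sum_bijective antipode ?_ _ _ fun _ => rfl
    exact ⟨fun y z hyz => by rw [← antipode_antipode y, hyz, antipode_antipode],
      fun y => ⟨antipode y, antipode_antipode y⟩⟩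
  simp only [h1, Finset.sum_neg_distrib, h2] at h
  have h3 := pairs hc
  rw [neg_div, neg_div] at h
  linarith

end Pool.Agent.AntiPath

namespace Pool.Agent.Results.MP_615643_co.SqrtChanges

open Pool.Agent.AntiPath

theorem result (n : ℕ) (c : (Fin n → Bool) → (Fin n → Bool) → Bool)
    (hc : ∀ u v, c u v = c v u) :
    ∃ (k : (Fin n → Bool) → ℕ) (p : (Fin n → Bool) → ℕ → (Fin n → Bool)),
      (∀ x, IsPath (p x) (k x) ∧ p x 0 = x ∧ p x (k x) = antipode x) ∧
      (∑ x, (changes c (p x) (k x) : ℝ)) / 2 ^ n ≤ 4 * √(density c * (1 - density c) * n) ∧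
      ∃ x, (changes c (p x) (k x) : ℝ) ≤ 2 * √n := by
  choose k p hp h0 hk hm using fun x => minChanges_spec (c := c) x (antipode x)
  have h1 : (∑ x, (changes c (p x) (k x) : ℝ)) / 2 ^ n ≤
      4 * √(density c * (1 - density c) * n) := by
    refine le_trans ?_ (diag hc)
    gcongr with x
    rw [hm x]
    exact min_le_FF x _
  refine ⟨k, p, fun x => ⟨hp x, h0 x, hk x⟩, h1, ?_⟩
  have h3 : ∑ x, (changes c (p x) (k x) : ℝ) ≤
      ∑ _x : Fin n → Bool, 4 * √(density c * (1 - density c) * n) := by
    rw [div_le_iff₀ (by positivity)] at h1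
    refine h1.trans (le_of_eq ?_)
    rw [Finset.sum_const, Ker.card_cube, nsmul_eq_mul]
    push_cast
    ring
  obtain ⟨x, -, hx⟩ := Finset.exists_le_of_sum_le Finset.univ_nonempty h3
  refine ⟨x, hx.trans ?_⟩
  have h7 : density c * (1 - density c) * n ≤ (1 / 2) ^ 2 * n := by
    have : density c * (1 - density c) ≤ (1 / 2) ^ 2 := by
      nlinarith [sq_nonneg (density c - 1 / 2)]
    gcongr
  have h8 : √(density c * (1 - density c) * n) ≤ 1 / 2 * √n := by
    refine (Real.sqrt_le_sqrt h7).trans (le_of_eq ?_)
    rw [Real.sqrt_mul (by positivity), Real.sqrt_sq (by norm_num)]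
  linarith

end Pool.Agent.Results.MP_615643_co.SqrtChanges
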