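import Pool.Agent.NorK.Mid

set_option autoImplicit false

/-!
# MP_615643_co: antipodal paths with at most two colour changes

For every 2-colouring of the edges of the `n`-cube there are vertices `x` and `v` such that, for
both colours `a`,

* `x` is joined to its antipode by a path which begins with edges of the colour `a`, continues
  with edges of the other colour and ends with edges of the colour `a` (each of the three segments
  may be empty), so with at most two colour changes;
* `x` is joined to `v`, and `v` to the antipode of `x`, by a path which begins with edges of the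
  colour `a` and ends with edges of the other colour (each segment may be empty).

So one and the same antipodal pair is joined by paths of both patterns `0,1,0` and `1,0,1`.
-/

namespace Pool.Agent.Results.MP_615643_co.TwoChanges

open Pool.Agent.AntiPath

theorem result (n : ℕ) (c : (Fin n → Bool) → (Fin n → Bool) → Bool)
    (hc : ∀ u v, c u v = c v u) :
    ∃ x v : Fin n → Bool, ∀ a : Bool,
      (∃ (k : ℕ) (p : ℕ → (Fin n → Bool)), IsPath p k ∧ p 0 = x ∧ p k = antipode x ∧
        changes c p k ≤ 2 ∧ ∃ i j : ℕ, i ≤ j ∧ j ≤ k ∧
          ∀ t, t < k → (c (p t) (p (t + 1)) = a ↔ t < i ∨ j ≤ t)) ∧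
      (∃ (k : ℕ) (p : ℕ → (Fin n → Bool)) (j : ℕ), IsPath p k ∧ p 0 = x ∧ p k = v ∧ j ≤ k ∧
        ∀ t, t < k → (c (p t) (p (t + 1)) = a ↔ t < j)) ∧
      ∃ (k : ℕ) (p : ℕ → (Fin n → Bool)) (j : ℕ), IsPath p k ∧ p 0 = v ∧ p k = antipode x ∧
        j ≤ k ∧ ∀ t, t < k → (c (p t) (p (t + 1)) = a ↔ t < j) :=
  Pool.Agent.NorK.mid c hc

end Pool.Agent.Results.MP_615643_co.TwoChanges
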